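import Pool.Agent.C75W.Im
import Pool.Agent.Helper6.MONO.Stmts

/-!
Module GRA of the crew project on MP_c75db0_gt: Gram data of the polar vectors.
-/

set_option autoImplicit false
noncomputable section
namespace Pool.Agent.Helper6.MONO

theorem gra_star (x y : Fin 3 → ℂ) : hf y x = star (hf x y) := by
  unfold hf
  simp only [star_sub, star_add, star_mul', star_star]
  ring

theorem gra_cos (M : ℕ) (hM : 3 ≤ M) : 0 < Real.cos (Real.pi / M) := by
  apply Real.cos_pos_of_mem_Ioo
  have h1 : (3 : ℝ) ≤ (M : ℝ) := by exact_mod_cast hM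
  have h2 : 0 < Real.pi / M := div_pos Real.pi_pos (by linarith)
  constructor
  · have := Real.pi_pos
    linarith
  · rw [div_lt_div_iff₀ (by linarith) (by norm_num)]
    nlinarith [Real.pi_pos]

/-- half-angle formula -/
theorem gra_half (z : ℂ) (hz : ‖z‖ = 1) (hre : 0 ≤ z.re) :
    |z.im / (1 + z.re)| ≤ 1 ∧
      (1 + ((z.im / (1 + z.re) : ℝ) : ℂ) * Complex.I) / (1 - ((z.im / (1 + z.re) : ℝ) : ℂ) *
        Complex.I) = z := by
  have h0 : z.re * z.re + z.im * z.im = 1 := by
    have h := Complex.normSq_eq_norm_sq z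
    rw [Complex.normSq_apply, hz] at h
    linarith
  have hp : 0 < 1 + z.re := by linarith
  have hτ : (z.im / (1 + z.re)) * (1 + z.re) = z.im := div_mul_cancel₀ _ hp.ne'
  set t : ℝ := z.im / (1 + z.re) with ht
  constructor
  · rw [ht, abs_div, abs_of_pos hp, div_le_one hp]
    have h1 : |z.im| ≤ 1 := by
      rw [abs_le]
      constructor <;> nlinarith [mul_self_nonneg z.re]
    linarith
  · have hne : (1 : ℂ) - (t : ℂ) * Complex.I ≠ 0 := by
      intro h
      have h1 := congrArg Complex.re h
      simp at h1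
    rw [div_eq_iff hne]
    apply Complex.ext
    · simp only [Complex.add_re, Complex.one_re, Complex.mul_re, Complex.ofReal_re, Complex.I_re,
        Complex.ofReal_im, Complex.I_im, Complex.sub_re, Complex.sub_im, Complex.one_im,
        Complex.mul_im]
      have h1 : z.re + z.im * t = 1 := by
        have h2 : (z.re + z.im * t) * (1 + z.re) = 1 * (1 + z.re) := by
          calc (z.re + z.im * t) * (1 + z.re) = z.re * (1 + z.re) + z.im * (t * (1 + z.re)) := by ring
            _ = z.re * (1 + z.re) + z.im * z.im := by rw [hτ]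
            _ = _ := by linarith
        exact mul_right_cancel₀ hp.ne' h2
      nlinarith
    · simp only [Complex.add_im, Complex.one_im, Complex.mul_im, Complex.ofReal_re, Complex.I_re,
        Complex.ofReal_im, Complex.I_im, Complex.sub_re, Complex.sub_im, Complex.one_re,
        Complex.mul_re]
      nlinarith

theorem st_GRA : ST_GRA := by
  intro p q r hp hq hr e he htr
  have c1 := gra_cos p hp
  have c2 := gra_cos q hq
  have c3 := gra_cos r hr
  have h01 := he.ang1
  have h12 := he.ang2
  have h20 := he.ang3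
  have hsym : ∀ i j, ‖hf (e j) (e i)‖ = ‖hf (e i) (e j)‖ := by
    intro i j
    rw [gra_star (e i) (e j), norm_star]
  set P : ℝ := Real.cos (Real.pi / p) * Real.cos (Real.pi / q) * Real.cos (Real.pi / r) with hP
  have hPpos : 0 < P := by positivity
  have hnt : ‖trip e‖ = P := by
    unfold trip
    rw [norm_mul, norm_mul, h01, h12, h20]
  set z : ℂ := -(trip e) / (P : ℂ) with hz
  have hPc : (P : ℂ) ≠ 0 := by exact_mod_cast hPpos.ne'
  have hz1 : ‖z‖ = 1 := by
    rw [hz, norm_div, norm_neg, hnt, Complex.norm_real, Real.norm_eq_abs, abs_of_pos hPpos,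
      div_self hPpos.ne']
  have hzre : 0 ≤ z.re := by
    rw [hz, Complex.div_ofReal_re, Complex.neg_re]
    exact div_nonneg (by linarith) hPpos.le
  obtain ⟨g1, g2⟩ := gra_half z hz1 hzre
  refine ⟨z.im / (1 + z.re), g1, ?_, ?_, ?_⟩
  · intro i j
    unfold gram
    rw [gra_star (e i) (e j)]
    simp
  · intro i j hij
    have hg : ‖gram e i j‖ = 2 * ‖hf (e i) (e j)‖ := by
      unfold gram
      rw [norm_mul]
      simp
    rw [hg]
    fin_cases i <;> fin_cases j
    · exact absurd rfl hij
    · change 2 * ‖hf (e 0) (e 1)‖ = _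
      rw [h01]; rfl
    · change 2 * ‖hf (e 0) (e 2)‖ = _
      rw [hsym 2 0, h20]; rfl
    · change 2 * ‖hf (e 1) (e 0)‖ = _
      rw [hsym 0 1, h01]; rfl
    · exact absurd rfl hij
    · change 2 * ‖hf (e 1) (e 2)‖ = _
      rw [h12]; rfl
    · change 2 * ‖hf (e 2) (e 0)‖ = _
      rw [h20]; rfl
    · change 2 * ‖hf (e 2) (e 1)‖ = _
      rw [hsym 1 2, h12]; rfl
    · exact absurd rfl hij
  · rw [g2]
    have hk : kk p q r 0 1 * kk p q r 1 2 * kk p q r 2 0 = 8 * P := by
      have e1 : kk p q r 0 1 = 2 * Real.cos (Real.pi / p) := rfl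
      have e2 : kk p q r 1 2 = 2 * Real.cos (Real.pi / q) := rfl
      have e3 : kk p q r 2 0 = 2 * Real.cos (Real.pi / r) := rfl
      rw [e1, e2, e3, hP]
      ring
    rw [hk, hz]
    push_cast
    have h8 : (8 * (P : ℂ)) * (-trip e / (P : ℂ)) = -8 * trip e := by
      field_simp
    rw [h8]
    unfold gram trip
    ring

end Pool.Agent.Helper6.MONO
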